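import Pool.Agent.Helper39.ETC.G49
import Pool.Agent.Helper39.ETC.G1011
import Pool.Agent.Helper88.ETC.F123

/-!
# ETC-R1: every ordering of the fixed field is induced by an involution

Paper proof: helper37.  Lean: helper46.  The proof is formulated with closed subgroups: we take a
closed subgroup `D`, minimal with the property that `-1` is not a sum of elements `q x²` with
`q ∈ P` and `x` fixed by `D`.
-/

set_option autoImplicit false

namespace Pool.Helper37.ETC

open Module

namespace R1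

section

variable {G K : Type*} [Group G] [Field K] [MulSemiringAction G K]

/-- `x` is fixed by `D`. -/
def Fix (D : Subgroup G) (x : K) : Prop := ∀ δ ∈ D, δ • x = x

theorem Fix.add {D : Subgroup G} {x y : K} (hx : Fix D x) (hy : Fix D y) : Fix D (x + y) :=
  fun δ hδ => by rw [smul_add, hx δ hδ, hy δ hδ]

theorem Fix.mul {D : Subgroup G} {x y : K} (hx : Fix D x) (hy : Fix D y) : Fix D (x * y) :=
  fun δ hδ => by rw [smul_mul', hx δ hδ, hy δ hδ]

theorem Fix.neg {D : Subgroup G} {x : K} (hx : Fix D x) : Fix D (-x) :=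
  fun δ hδ => by rw [smul_neg, hx δ hδ]

theorem Fix.sub {D : Subgroup G} {x y : K} (hx : Fix D x) (hy : Fix D y) : Fix D (x - y) :=
  fun δ hδ => by rw [smul_sub, hx δ hδ, hy δ hδ]

theorem Fix.inv {D : Subgroup G} {x : K} (hx : Fix D x) : Fix D x⁻¹ :=
  fun δ hδ => by rw [smul_inv'', hx δ hδ]

theorem Fix.div {D : Subgroup G} {x y : K} (hx : Fix D x) (hy : Fix D y) : Fix D (x / y) := by
  rw [div_eq_mul_inv]; exact hx.mul hy.inv

theorem Fix.one {D : Subgroup G} : Fix D (1 : K) := fun δ _ => smul_one δ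

theorem Fix.zero {D : Subgroup G} : Fix D (0 : K) := fun δ _ => smul_zero δ

theorem Fix.two {D : Subgroup G} : Fix D (2 : K) := by
  have : (2 : K) = 1 + 1 := by norm_num
  rw [this]; exact Fix.one.add Fix.one

theorem Fix.pow {D : Subgroup G} {x : K} (hx : Fix D x) : Fix D (x ^ 2) := by
  rw [pow_two]; exact hx.mul hx

theorem Fix.coe {D : Subgroup G} (q : Fxs G K) : Fix D (q : K) := fun δ _ => q.2 δ

theorem Fix.mono {D D' : Subgroup G} (h : D' ≤ D) {x : K} (hx : Fix D x) : Fix D' x :=
  fun δ hδ => hx δ (h hδ)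

/-- generators of the cone. -/
def gen (P : Set (Fxs G K)) (D : Subgroup G) : Set K :=
  {z | ∃ q ∈ P, ∃ x : K, Fix D x ∧ z = (q : K) * x ^ 2}

/-- the cone. -/
def cone (P : Set (Fxs G K)) (D : Subgroup G) : AddSubmonoid K := AddSubmonoid.closure (gen P D)

variable {P : Set (Fxs G K)} (hP : IsPos P)

include hP

theorem one_mem : (1 : Fxs G K) ∈ P := by
  rcases hP.total (x := 1) one_ne_zero with h | h
  · exact h
  · have := hP.mul h h
    simpa using this

theorem sq_mem_cone {D : Subgroup G} {x : K} (hx : Fix D x) : x ^ 2 ∈ cone P D :=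
  AddSubmonoid.subset_closure ⟨1, one_mem hP, x, hx, by simp⟩

theorem one_mem_cone {D : Subgroup G} : (1 : K) ∈ cone P D := by
  have := sq_mem_cone hP (D := D) (x := (1 : K)) Fix.one
  simpa using this

theorem mul_mem_cone {D : Subgroup G} {x y : K} (hx : x ∈ cone P D) (hy : y ∈ cone P D) :
    x * y ∈ cone P D := by
  induction hx using AddSubmonoid.closure_induction with
  | mem x hx =>
    induction hy using AddSubmonoid.closure_induction with
    | mem y hy =>
      obtain ⟨q, hq, u, hu, rfl⟩ := hx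
      obtain ⟨r, hr, v, hv, rfl⟩ := hy
      refine AddSubmonoid.subset_closure ⟨q * r, hP.mul hq hr, u * v, hu.mul hv, ?_⟩
      push_cast
      ring
    | zero => rw [mul_zero]; exact (cone P D).zero_mem
    | add a b _ _ ha hb => rw [mul_add]; exact (cone P D).add_mem ha hb
  | zero => rw [zero_mul]; exact (cone P D).zero_mem
  | add a b _ _ ha hb => rw [add_mul]; exact (cone P D).add_mem ha hb

omit hP in
theorem fix_of_cone {D : Subgroup G} {x : K} (hx : x ∈ cone P D) : Fix D x := by
  induction hx using AddSubmonoid.closure_induction with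
  | mem x hx =>
    obtain ⟨q, -, u, hu, rfl⟩ := hx
    exact (Fix.coe q).mul hu.pow
  | zero => exact Fix.zero
  | add a b _ _ ha hb => exact ha.add hb

omit hP in
theorem coe_mem_cone {D : Subgroup G} {q : Fxs G K} (hq : q ∈ P) : (q : K) ∈ cone P D :=
  AddSubmonoid.subset_closure ⟨q, hq, 1, Fix.one, by simp⟩

/-- `-1` is not in the cone of the fixed field. -/
theorem top_good : (-1 : K) ∉ cone P (⊤ : Subgroup G) := by
  have h : ∀ z ∈ cone P (⊤ : Subgroup G), ∃ q : Fxs G K, (q : K) = z ∧ (q = 0 ∨ q ∈ P) := by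
    intro z hz
    induction hz using AddSubmonoid.closure_induction with
    | mem z hz =>
      obtain ⟨q, hq, u, hu, rfl⟩ := hz
      have hu' : u ∈ Fxs G K := fun σ => hu σ (Subgroup.mem_top σ)
      refine ⟨q * ⟨u, hu'⟩ ^ 2, by push_cast; rfl, ?_⟩
      by_cases h0 : (⟨u, hu'⟩ : Fxs G K) = 0
      · left; rw [h0]; ring
      · right
        refine hP.mul hq ?_
        rw [pow_two]
        rcases hP.total h0 with h | h
        · exact hP.mul h h
        · have := hP.mul h h
          rwa [neg_mul_neg] at this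
    | zero => exact ⟨0, by simp, Or.inl rfl⟩
    | add a b _ _ ha hb =>
      obtain ⟨q, hq, hq'⟩ := ha
      obtain ⟨r, hr, hr'⟩ := hb
      refine ⟨q + r, by push_cast; rw [hq, hr], ?_⟩
      rcases hq' with rfl | hq'
      · rw [zero_add]; exact hr'
      · rcases hr' with rfl | hr'
        · rw [add_zero]; exact Or.inr hq'
        · exact Or.inr (hP.add hq' hr')
  intro h1
  obtain ⟨q, hq, hq'⟩ := h _ h1
  have hq1 : q = -1 := Subtype.ext (by rw [hq]; simp)
  rcases hq' with h2 | h2
  · rw [h2] at hq1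
    have : (1 : Fxs G K) = 0 := by linear_combination hq1
    exact one_ne_zero this
  · rw [hq1] at h2
    have := hP.add h2 (one_mem hP)
    rw [neg_add_cancel] at this
    exact hP.zero this

end

section

variable {G K : Type*} [Group G] [TopologicalSpace G]
  [IsTopologicalGroup G] [CompactSpace G] [T2Space G] [TotallyDisconnectedSpace G] [Field K]
  [MulSemiringAction G K] {ζ : K} {P : Set (Fxs G K)}

/-- Zorn's lemma: a minimal closed subgroup for which `-1` is not in the cone. -/
theorem exists_min (hc : ∀ x : K, IsOpen {σ : G | σ • x = x}) (hP : IsPos P) :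
    ∃ D : Subgroup G, IsClosed (D : Set G) ∧ (-1 : K) ∉ cone P D ∧
      ∀ D' : Subgroup G, IsClosed (D' : Set G) → (-1 : K) ∉ cone P D' → D' ≤ D → D' = D := by
  obtain ⟨D, hD⟩ := @zorn_le₀ (Subgroup G)ᵒᵈ _
    {D | IsClosed ((OrderDual.ofDual D : Subgroup G) : Set G) ∧
      (-1 : K) ∉ cone P (OrderDual.ofDual D)} (by
    intro c hcs hchain
    rcases c.eq_empty_or_nonempty with rfl | hne
    · exact ⟨OrderDual.toDual ⊤, ⟨by simp, top_good hP⟩, fun z hz => absurd hz (by simp)⟩
    · have : Nonempty c := hne.to_subtype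
      set I : Subgroup G := ⨅ D : c, OrderDual.ofDual (D : (Subgroup G)ᵒᵈ) with hI
      have hcl : ∀ D : c, IsClosed ((OrderDual.ofDual (D : (Subgroup G)ᵒᵈ) : Subgroup G) : Set G) :=
        fun D => (hcs D.2).1
      have hdir : Directed (· ≥ ·) fun D : c => (OrderDual.ofDual (D : (Subgroup G)ᵒᵈ)) := by
        intro a b
        rcases hchain.total a.2 b.2 with h | h
        · exact ⟨b, h, le_refl _⟩
        · exact ⟨a, le_refl _, h⟩
      refine ⟨OrderDual.toDual I, ⟨?_, ?_⟩, ?_⟩
      · change IsClosed (I : Set G)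
        rw [hI, Subgroup.coe_iInf]
        exact isClosed_iInter hcl
      · change (-1 : K) ∉ cone P I
        intro hmem
        have hgen : gen P I ⊆ ⋃ D : c, gen P (OrderDual.ofDual (D : (Subgroup G)ᵒᵈ)) := by
          rintro _ ⟨q, hq, x, hx, rfl⟩
          obtain ⟨D, hD⟩ := exists_subset_nhds_of_compactSpace
            (V := fun D : c => ((OrderDual.ofDual (D : (Subgroup G)ᵒᵈ) : Subgroup G) : Set G))
            (U := {σ : G | σ • x = x})
            (fun a b => by
              obtain ⟨e, h1, h2⟩ := hdir a b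
              exact ⟨e, h1, h2⟩) hcl (fun σ hσ => by
              refine (hc x).mem_nhds ?_
              exact hx σ (by rw [hI, Subgroup.mem_iInf]; exact fun D => Set.mem_iInter.1 hσ D))
          exact Set.mem_iUnion.2 ⟨D, q, hq, x, fun δ hδ => hD hδ, rfl⟩
        have h2 : (-1 : K) ∈ ⨆ D : c, cone P (OrderDual.ofDual (D : (Subgroup G)ᵒᵈ)) := by
          have := AddSubmonoid.closure_mono hgen hmem
          rwa [AddSubmonoid.closure_iUnion] at this
        rw [AddSubmonoid.mem_iSup_of_directed] at h2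
        · obtain ⟨D, hD⟩ := h2
          exact (hcs D.2).2 hD
        · intro a b
          obtain ⟨e, h1, h2⟩ := hdir a b
          have mono : ∀ {D D' : Subgroup G}, D' ≤ D → cone P D ≤ cone P D' := by
            intro D D' h
            refine AddSubmonoid.closure_mono ?_
            rintro _ ⟨q, hq, x, hx, rfl⟩
            exact ⟨q, hq, x, hx.mono h, rfl⟩
          exact ⟨e, mono h1, mono h2⟩
      · intro z hz
        change I ≤ OrderDual.ofDual z
        exact iInf_le (fun D : c => OrderDual.ofDual (D : (Subgroup G)ᵒᵈ)) ⟨z, hz⟩)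
  refine ⟨OrderDual.ofDual D, hD.prop.1, hD.prop.2, fun D' h1 h2 h3 => ?_⟩
  exact le_antisymm h3 (hD.le_of_ge (y := OrderDual.toDual D') ⟨h1, h2⟩ h3)

/-- decomposition of the elements fixed by an index two subgroup. -/
theorem decomp {D : Subgroup G} (h2 : (2 : K) ≠ 0) {x w : K} (hx : Fix D x) (hw : w ^ 2 = x)
    (hwD : ¬ Fix D w) {y : K} (hy : ∀ δ ∈ D, δ • w = w → δ • y = y) :
    ∃ u v : K, Fix D u ∧ Fix D v ∧ y = u + v * w := by
  have hsq : ∀ δ ∈ D, δ • w = w ∨ δ • w = -w := by
    intro δ hδ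
    have h1 : (δ • w) ^ 2 = w ^ 2 := by rw [← smul_pow', hw, hx δ hδ]
    exact sq_eq_sq_iff_eq_or_eq_neg.1 h1
  unfold Fix at hwD
  push Not at hwD
  obtain ⟨σ, hσ, hσw⟩ := hwD
  have hσw' : σ • w = -w := (hsq σ hσ).resolve_left hσw
  have hw0 : w ≠ 0 := by
    intro h; rw [h, smul_zero] at hσw; exact hσw rfl
  have hσi : σ⁻¹ • w = -w := by
    have : σ⁻¹ • (σ • w) = w := inv_smul_smul σ w
    rw [hσw', smul_neg] at this
    linear_combination -this
  -- action of `D` on `y` and `σ • y`
  have hA : ∀ δ ∈ D, δ • w = w → δ • (σ • y) = σ • y := by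
    intro δ hδ hδw
    have h1 : (σ⁻¹ * δ * σ) • y = y := by
      refine hy _ (D.mul_mem (D.mul_mem (D.inv_mem hσ) hδ) hσ) ?_
      rw [mul_smul, mul_smul, hσw', smul_neg, hδw, smul_neg, hσi, neg_neg]
    have h3 : δ • (σ • y) = σ • ((σ⁻¹ * δ * σ) • y) := by
      simp only [← mul_smul]; congr 1; group
    rw [h3, h1]
  have hB : ∀ δ ∈ D, δ • w = -w → δ • y = σ • y := by
    intro δ hδ hδw
    have h1 : (σ⁻¹ * δ) • y = y := by
      refine hy _ (D.mul_mem (D.inv_mem hσ) hδ) ?_
      rw [mul_smul, hδw, smul_neg, hσi, neg_neg]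
    have h3 : δ • y = σ • ((σ⁻¹ * δ) • y) := by
      simp only [← mul_smul]; congr 1; group
    rw [h3, h1]
  have hC : ∀ δ ∈ D, δ • w = -w → δ • (σ • y) = y := by
    intro δ hδ hδw
    have h1 := hy (δ * σ) (D.mul_mem hδ hσ) (by rw [mul_smul, hσw', smul_neg, hδw, neg_neg])
    rw [mul_smul] at h1
    exact h1
  have h2f : ∀ δ : G, δ • (2 : K) = 2 := by
    intro δ
    exact Fix.two (D := ⊤) δ (Subgroup.mem_top δ)
  refine ⟨(y + σ • y) / 2, (y - σ • y) / (2 * w), ?_, ?_, ?_⟩
  · intro δ hδ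
    rcases hsq δ hδ with h | h
    · rw [smul_div₀', h2f, smul_add, hy δ hδ h, hA δ hδ h]
    · rw [smul_div₀', h2f, smul_add, hB δ hδ h, hC δ hδ h, add_comm]
  · intro δ hδ
    rcases hsq δ hδ with h | h
    · rw [smul_div₀', smul_mul', h2f, smul_sub, hy δ hδ h, hA δ hδ h, h]
    · rw [smul_div₀', smul_mul', h2f, smul_sub, hB δ hδ h, hC δ hδ h, h]
      field_simp
      ring
  · field_simp
    ring

end

end R1

open R1

section Galois

variable {G K : Type*} [Group G] [TopologicalSpace G]
  [IsTopologicalGroup G] [CompactSpace G] [T2Space G] [TotallyDisconnectedSpace G] [Field K]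
  [MulSemiringAction G K] {ζ : K}

/-- R1 -/
theorem R1.exists_involution_alt (Gd : Good 2 G K ζ) (P : Set (Fxs G K)) (hP : IsPos P)
    {a b : Fxs G K} (ha : a ∉ P) (hb : b ∉ P) (ha0 : a ≠ 0) (hb0 : b ≠ 0) :
    ∃ c : G, c * c = 1 ∧ c ≠ 1 ∧ ∀ α : K, (α ^ 2 = (a : K) ∨ α ^ 2 = (b : K)) → c • α = -α := by
  have h2 : (2 : K) ≠ 0 := by
    intro h
    have h1 : ζ ^ 2 = 1 := Gd.prim.pow_eq_one
    have h3 : (ζ - 1) ^ 2 = 0 := by linear_combination h1 + (1 - ζ) * h
    have h4 : ζ = 1 := by
      have := pow_eq_zero_iff (two_ne_zero) |>.1 h3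
      linear_combination this
    exact Gd.prim.ne_one (by norm_num) h4
  obtain ⟨D, hDc, hDq, hmin⟩ := exists_min Gd.cont hP
  set T := cone P D with hT
  -- a non square of the fixed field has its negative in the cone
  have hneg : ∀ x : K, Fix D x → (¬ ∃ y, Fix D y ∧ y ^ 2 = x) → -x ∈ T := by
    intro x hx hns
    obtain ⟨w, hw⟩ := Gd.root x
    have hwD : ¬ Fix D w := fun h => hns ⟨w, h, hw⟩
    set D' : Subgroup G := D ⊓ MulAction.stabilizer G w with hD'
    have hD'c : IsClosed (D' : Set G) := by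
      have h1 : (D' : Set G) = (D : Set G) ∩ {σ : G | σ • w = w} := rfl
      rw [h1]
      have h3 : IsOpen ((MulAction.stabilizer G w : Subgroup G) : Set G) := Gd.cont w
      exact hDc.inter (Subgroup.isClosed_of_isOpen _ h3)
    have hD'ne : D' ≠ D := by
      intro h
      apply hwD
      intro δ hδ
      rw [← h] at hδ
      exact hδ.2
    have hbad : (-1 : K) ∈ cone P D' := by
      by_contra hcon
      exact hD'ne (hmin D' hD'c hcon inf_le_left)
    have hform : ∀ z ∈ cone P D', ∃ S ∈ T, ∃ U ∈ T, ∃ v, Fix D v ∧ z = S + x * U + v * w := by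
      intro z hz
      induction hz using AddSubmonoid.closure_induction with
      | mem z hz =>
        obtain ⟨q, hq, y, hy, rfl⟩ := hz
        obtain ⟨u, v, hu, hv, rfl⟩ := decomp h2 hx hw hwD (y := y)
          (fun δ hδ hδw => hy δ ⟨hδ, hδw⟩)
        refine ⟨(q : K) * u ^ 2, AddSubmonoid.subset_closure ⟨q, hq, u, hu, rfl⟩,
          (q : K) * v ^ 2, AddSubmonoid.subset_closure ⟨q, hq, v, hv, rfl⟩,
          (q : K) * (2 * u * v), (Fix.coe q).mul ((Fix.two.mul hu).mul hv), ?_⟩
        rw [← hw]; ring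
      | zero => exact ⟨0, T.zero_mem, 0, T.zero_mem, 0, Fix.zero, by ring⟩
      | add a b _ _ ha hb =>
        obtain ⟨S, hS, U, hU, v, hv, rfl⟩ := ha
        obtain ⟨S', hS', U', hU', v', hv', rfl⟩ := hb
        exact ⟨S + S', T.add_mem hS hS', U + U', T.add_mem hU hU', v + v', hv.add hv', by ring⟩
    obtain ⟨S, hS, U, hU, v, hv, he⟩ := hform _ hbad
    have hSf := fix_of_cone hS
    have hUf := fix_of_cone hU
    have hv0 : v = 0 := by
      by_contra hv0
      apply hwD
      have : w = (-1 - S - x * U) / v := by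
        field_simp
        linear_combination -he
      rw [this]
      exact ((Fix.one.neg.sub hSf).sub (hx.mul hUf)).div hv
    rw [hv0, zero_mul, add_zero] at he
    have hU0 : U ≠ 0 := by
      intro h
      rw [h, mul_zero, add_zero] at he
      exact hDq (he ▸ hS)
    have e : -x = (1 + S) * U * (U⁻¹) ^ 2 := by
      field_simp
      linear_combination he
    rw [e]
    exact mul_mem_cone hP (mul_mem_cone hP (T.add_mem (one_mem_cone hP) hS) hU)
      (sq_mem_cone hP hUf.inv)
  -- elements of the cone are squares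
  have hcone : ∀ x ∈ T, ∃ y, Fix D y ∧ y ^ 2 = x := by
    intro x hx
    by_contra hcon
    have h3 := hneg x (fix_of_cone hx) hcon
    have hx0 : x ≠ 0 := by
      rintro rfl
      exact hcon ⟨0, Fix.zero, by ring⟩
    apply hDq
    have e : (-1 : K) = x * (-x) * (x⁻¹) ^ 2 := by field_simp
    rw [e]
    exact mul_mem_cone hP (mul_mem_cone hP hx h3) (sq_mem_cone hP (fix_of_cone hx).inv)
  have hdich : ∀ x : K, Fix D x → (∃ y, Fix D y ∧ y ^ 2 = x) ∨ ∃ y, Fix D y ∧ y ^ 2 = -x := by
    intro x hx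
    by_cases h : ∃ y, Fix D y ∧ y ^ 2 = x
    · exact Or.inl h
    · exact Or.inr (hcone _ (hneg x hx h))
  -- the root of `-1`
  obtain ⟨i, hi⟩ := Gd.root (-1)
  have hiD : ¬ Fix D i := fun h => hDq (hi ▸ sq_mem_cone hP h)
  have hi0 : i ≠ 0 := by
    rintro rfl
    exact hiD Fix.zero
  have hisq : ∀ δ : G, δ • i = i ∨ δ • i = -i := by
    intro δ
    have h1 : (δ • i) ^ 2 = i ^ 2 := by rw [← smul_pow', hi, smul_neg, smul_one]
    exact sq_eq_sq_iff_eq_or_eq_neg.1 h1
  have hm1 : Fix D (-1 : K) := Fix.one.neg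
  set D₁ : Subgroup G := D ⊓ MulAction.stabilizer G i with hD₁
  have hD₁c : IsClosed (D₁ : Set G) := by
    have h1 : (D₁ : Set G) = (D : Set G) ∩ {σ : G | σ • i = i} := rfl
    rw [h1]
    have h3 : IsOpen ((MulAction.stabilizer G i : Subgroup G) : Set G) := Gd.cont i
    exact hDc.inter (Subgroup.isClosed_of_isOpen _ h3)
  -- every element fixed by `D₁` is a square
  have hsquare : ∀ z : K, Fix D₁ z → ∃ y, Fix D₁ y ∧ y ^ 2 = z := by
    intro z hz
    have hiF : Fix D₁ i := fun δ hδ => hδ.2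
    have hup : ∀ {y : K}, Fix D y → Fix D₁ y := fun h => h.mono inf_le_left
    obtain ⟨u, v, hu, hv, rfl⟩ := decomp h2 hm1 hi hiD (y := z) (fun δ hδ hδw => hz δ ⟨hδ, hδw⟩)
    by_cases hv0 : v = 0
    · subst hv0
      rw [zero_mul, add_zero]
      rcases hdich u hu with ⟨y, hy, hy'⟩ | ⟨y, hy, hy'⟩
      · exact ⟨y, hup hy, hy'⟩
      · refine ⟨i * y, hiF.mul (hup hy), ?_⟩
        rw [mul_pow, hi, hy']; ring
    · -- a root of the norm
      obtain ⟨m, hm, hm'⟩ := hcone (u ^ 2 + v ^ 2)
        (T.add_mem (sq_mem_cone hP hu) (sq_mem_cone hP hv))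
      have key : ∀ m : K, m ^ 2 = u ^ 2 + v ^ 2 → (∃ s, Fix D s ∧ s ^ 2 = (m + u) / 2) →
          ∃ y, Fix D₁ y ∧ y ^ 2 = u + v * i := by
        rintro m hm' ⟨s, hs, hs'⟩
        have hs0 : s ≠ 0 := by
          rintro rfl
          have h1 : m + u = 0 := by
            have : (m + u) / 2 = 0 := by rw [← hs']; ring
            rcases div_eq_zero_iff.1 this with h | h
            · exact h
            · exact absurd h h2
          have h3 : v ^ 2 = 0 := by linear_combination (m - u) * h1 - hm'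
          exact hv0 (pow_eq_zero_iff two_ne_zero |>.1 h3)
        have h2s : 2 * s ^ 2 = m + u := by rw [hs', mul_div_cancel₀ _ h2]
        have ht : v / (2 * s) * (2 * s) = v := div_mul_cancel₀ _ (mul_ne_zero h2 hs0)
        refine ⟨s + v / (2 * s) * i, (hup hs).add (((hup hv).div (Fix.two.mul (hup hs))).mul hiF), ?_⟩
        generalize v / (2 * s) = t at ht
        have ht2 : 2 * t ^ 2 = m - u := by
          have hne : 2 * s ^ 2 ≠ 0 := mul_ne_zero h2 (pow_ne_zero 2 hs0)
          apply mul_left_cancel₀ hne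
          have e3 : 2 * s ^ 2 * (2 * t ^ 2) = (t * (2 * s)) ^ 2 := by ring
          rw [e3, ht, h2s]
          linear_combination -hm'
        apply mul_left_cancel₀ h2
        linear_combination 2 * t ^ 2 * hi + 2 * i * ht + h2s - ht2
      rcases hdich ((m + u) / 2) ((hm.add hu).div Fix.two) with h | h
      · exact key m hm' h
      · -- replace `m` by `-m`
        refine key (-m) (by rw [neg_sq]; exact hm') ?_
        obtain ⟨s, hs, hs'⟩ := h
        have hs0 : s ≠ 0 := by
          rintro rfl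
          have h1 : m + u = 0 := by
            have : -((m + u) / 2) = 0 := by rw [← hs']; ring
            rcases div_eq_zero_iff.1 (neg_eq_zero.1 this) with h | h
            · exact h
            · exact absurd h h2
          have h3 : v ^ 2 = 0 := by linear_combination (m - u) * h1 - hm'
          exact hv0 (pow_eq_zero_iff two_ne_zero |>.1 h3)
        have h2s : 2 * s ^ 2 = -(m + u) := by rw [hs', mul_neg, mul_div_cancel₀ _ h2]
        have ht : v / (2 * s) * (2 * s) = v := div_mul_cancel₀ _ (mul_ne_zero h2 hs0)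
        refine ⟨v / (2 * s), hv.div (Fix.two.mul hs), ?_⟩
        generalize v / (2 * s) = t at ht
        rw [eq_div_iff h2]
        have hne : 2 * s ^ 2 ≠ 0 := mul_ne_zero h2 (pow_ne_zero 2 hs0)
        apply mul_left_cancel₀ hne
        have e3 : 2 * s ^ 2 * (t ^ 2 * 2) = (t * (2 * s)) ^ 2 := by ring
        rw [e3, ht, h2s]
        linear_combination -hm'
  -- `D₁` is trivial
  have hD₁bot : D₁ = ⊥ := by
    by_contra hne
    have : CompactSpace D₁ := isCompact_iff_compactSpace.1 hD₁c.isCompact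
    have Gd₁ : Good 2 D₁ K ζ := Gd.sub D₁
    have hbt : (⊥ : Subgroup D₁) ≠ ⊤ := by
      intro h
      apply hne
      rw [eq_bot_iff]
      intro σ hσ
      have : (⟨σ, hσ⟩ : D₁) ∈ (⊥ : Subgroup D₁) := by rw [h]; exact Subgroup.mem_top _
      rw [Subgroup.mem_bot] at this ⊢
      exact congrArg Subtype.val this
    obtain ⟨χ, hχ, ⟨σ, hσ⟩, -⟩ := exists_ch (p := 2) Gd₁.pp (⊥ : Subgroup D₁)
      (by rw [Subgroup.coe_bot]; exact isClosed_singleton) hbt
    obtain ⟨z, hz, hz0, hzk⟩ := kum_surj Gd₁ hχ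
    obtain ⟨y, hy, hy'⟩ := hsquare z (fun δ hδ => hz ⟨δ, hδ⟩)
    exact hσ ((kum_zero Gd₁ hz0 hzk).2 ⟨y, fun δ => hy δ δ.2, hy'⟩ σ)
  -- the involution
  have hiD' := hiD
  unfold R1.Fix at hiD'
  push Not at hiD'
  obtain ⟨c, hcD, hci⟩ := hiD'
  have hci' : c • i = -i := (hisq c).resolve_left hci
  refine ⟨c, ?_, ?_, ?_⟩
  · have hst : (c * c) • i = i := by rw [mul_smul, hci', smul_neg, hci', neg_neg]
    have : c * c ∈ D₁ := Subgroup.mem_inf.2 ⟨D.mul_mem hcD hcD, hst⟩
    rw [hD₁bot, Subgroup.mem_bot] at this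
    exact this
  · rintro rfl
    rw [one_smul] at hci
    exact hci rfl
  · have main : ∀ (a : Fxs G K), a ∉ P → a ≠ 0 → ∀ α : K, α ^ 2 = (a : K) → c • α = -α := by
      intro a ha ha0 α hα
      have h3 : -a ∈ P := (hP.total ha0).resolve_left ha
      obtain ⟨s, hs, hs'⟩ := hcone _ (coe_mem_cone (D := D) h3)
      have e : α ^ 2 = (i * s) ^ 2 := by
        rw [mul_pow, hi, hs', hα]; push_cast; ring
      rcases sq_eq_sq_iff_eq_or_eq_neg.1 e with h | h
      · rw [h, smul_mul', hci', hs c hcD]; ring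
      · rw [h, smul_neg, smul_mul', hci', hs c hcD]; ring
    rintro α (h | h)
    · exact main a ha ha0 α h
    · exact main b hb hb0 α h

end Galois

end Pool.Helper37.ETC
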